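import Mathlib
import Pool.Agent.R594.Rai.Forced
import Pool.Agent.R594.Rai.Zfc

set_option autoImplicit false

/-!
# MP_6f516b_lc, Q1: it is consistent that `cof(N) < cov(R)`

The first part says that a combinatorial principle is forced by a notion of forcing `P`, which
exists outright: `P` is the product, with countable supports, of more than `2 ^ ℵ₀` copies of
Silver forcing (`Pool.Agent.R594.Rai.SC`). See `Pool.Agent.R594.Rai.Sent` for the principle
(`Principle` is the statement about actual objects, `ForcedPrinciple` the same statement in the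
forcing language), and `Pool.Agent.Helper126.Sus.Forc` for the forcing language.

The second part is a theorem about actual objects: whenever the principle holds for a set `W`, then
`cof(N) ≤ |W| < cov(R)`, where `N` is the ideal of the null subsets of the Cantor space and `R` is
the Raisonnier ideal. So `cov(R) ≤ cof(N)` is not provable in ZFC.
-/

namespace Pool.Agent.Results.MP_6f516b_lc.CofLtCov

open Cardinal Pool.Agent.R594.Rai Pool.Agent.H20R3.Yor

/-- (1) There are a notion of forcing `P` (a nonempty preordered set), sets `W`, `D`, slaloms `C w`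
(`w` in `W`) and partitioning reals `δ d` (`d` in `D`) such that every condition forces the
principle for `W`, `D`, `C` and `δ`. (2) If the principle holds for sets `W`, `D`, slaloms `C w`
and partitioning reals `δ d`, then `cof(N) ≤ |W| < cov(R)`. -/
theorem result :
    (∃ (P : Type) (_ : Preorder P) (W D : Type) (C : W → ℕ → Finset ℕ) (δ : D → ℕ → ℕ),
      Nonempty P ∧ (∀ w n, (C w n).card ≤ 2 ^ n) ∧ (∀ d, StrictMono (δ d) ∧ δ d 0 = 0) ∧
        ∀ p : P, p ∈ ForcedPrinciple P W D C δ) ∧
    (∀ (W D : Type) (C : W → ℕ → Finset ℕ) (δ : D → ℕ → ℕ),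
      (∀ w n, (C w n).card ≤ 2 ^ n) → (∀ d, StrictMono (δ d) ∧ δ d 0 = 0) →
        Principle W D C δ → cofNum nullIdeal ≤ #W ∧ #W < covNum raisonnier) :=
  ⟨exists_forcing, fun _ _ _ _ hC hδ h => ⟨cof_le hC h, lt_cov hδ h⟩⟩

end Pool.Agent.Results.MP_6f516b_lc.CofLtCov
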